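import Mathlib
import Pool.Agent.H293Z.MO.Sub
import Pool.Agent.Helper625.Planch

/-!
A Plancherel inequality and the mean square estimate for Gaussian weighted prime sums.
-/

set_option autoImplicit false

open Filter Topology MeasureTheory FourierTransform

namespace Pool.Agent.H168Z.MS

open Pool.Agent.H293Z.MO Pool.Agent.H392Z.MO

lemma four_eq (φ : ℝ → ℂ) (u : ℝ) :
    ∫ t : ℝ, φ t * Complex.exp (Complex.I * t * u) = 𝓕 φ (-(2 * Real.pi)⁻¹ * u) := by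
  rw [Real.fourier_real_eq_integral_exp_smul]
  refine integral_congr_ae (Eventually.of_forall fun t => ?_)
  have hpi := Real.pi_pos
  have e : -2 * Real.pi * t * (-(2 * Real.pi)⁻¹ * u) = t * u := by field_simp
  simp only [e, smul_eq_mul]
  rw [mul_comm]
  congr 2
  push_cast
  ring

lemma four_cont {φ : ℝ → ℂ} (h1 : Integrable φ) :
    Continuous fun u : ℝ => ∫ t : ℝ, φ t * Complex.exp (Complex.I * t * u) := by
  have hcont : Continuous (𝓕 φ) := by
    have := VectorFourier.fourierIntegral_continuous (L := innerₗ ℝ) Real.continuous_fourierChar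
      continuous_inner h1
    exact this
  simp_rw [four_eq]
  exact hcont.comp (continuous_const.mul continuous_id)

theorem pl : S_PL := by
  intro φ h1 h2 a b hab
  have hm : MemLp φ 2 := (memLp_two_iff_integrable_sq_norm h1.1).2 h2
  obtain ⟨h3, h4⟩ := Pool.Agent.Helper625.Planch.plancherel φ h1 hm
  have h5 : Integrable (fun ξ => ‖𝓕 φ ξ‖ ^ 2) := (memLp_two_iff_integrable_sq_norm h3.1).1 h3
  have hpi := Real.pi_pos
  have hc : -(2 * Real.pi)⁻¹ ≠ 0 := neg_ne_zero.2 (by positivity)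
  have h6 := h5.comp_mul_left' hc
  have h7 := Measure.integral_comp_mul_left (fun ξ => ‖𝓕 φ ξ‖ ^ 2) (-(2 * Real.pi)⁻¹)
  simp_rw [four_eq]
  rw [intervalIntegral.integral_of_le hab]
  refine (setIntegral_le_integral h6 (Eventually.of_forall fun u => by positivity)).trans ?_
  rw [h7, h4, inv_neg, inv_inv, abs_neg, abs_of_pos (by positivity), smul_eq_mul]
  have h8 : 0 ≤ ∫ t : ℝ, ‖φ t‖ ^ 2 := integral_nonneg fun t => by positivity
  nlinarith [mul_nonneg hpi.le h8]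

lemma pow_bound {δ η : ℝ} (hδ : 0 < δ) (hδ1 : δ ≤ 1) (hη : 0 ≤ η) (hη1 : η ≤ 1) (t : ℝ) :
    (|t| + 3) ^ η ≤ 4 * δ ^ (-η) * Real.exp (δ ^ 2 * t ^ 2 / 4) := by
  have ht := abs_nonneg t
  have h1 : |t| + 3 ≤ (δ * |t| + 3) / δ := by
    rw [le_div_iff₀ hδ]; nlinarith
  have h2 : (|t| + 3) ^ η ≤ ((δ * |t| + 3) / δ) ^ η := Real.rpow_le_rpow (by positivity) h1 hη
  rw [Real.div_rpow (by positivity) hδ.le, div_eq_mul_inv, ← Real.rpow_neg hδ.le] at h2
  have hx : 0 ≤ δ * |t| := by positivity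
  have h3 : (δ * |t| + 3) ^ η ≤ δ * |t| + 3 := by
    calc (δ * |t| + 3) ^ η ≤ (δ * |t| + 3) ^ (1 : ℝ) :=
          Real.rpow_le_rpow_of_exponent_le (by linarith) hη1
      _ = _ := Real.rpow_one _
  have h4 : δ * |t| + 3 ≤ 4 * Real.exp (δ ^ 2 * t ^ 2 / 4) := by
    have a1 := Real.add_one_le_exp (δ ^ 2 * t ^ 2 / 4)
    have a2 : δ ^ 2 * t ^ 2 = (δ * |t|) ^ 2 := by rw [mul_pow, sq_abs]
    rw [a2] at a1 ⊢
    nlinarith [sq_nonneg (δ * |t| - 1)]
  have h5 : 0 ≤ δ ^ (-η) := by positivity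
  calc (|t| + 3) ^ η ≤ (δ * |t| + 3) ^ η * δ ^ (-η) := h2
    _ ≤ (4 * Real.exp (δ ^ 2 * t ^ 2 / 4)) * δ ^ (-η) :=
        mul_le_mul_of_nonneg_right (h3.trans h4) h5
    _ = _ := by ring

lemma ker_cont {σ C : ℝ} (hσ : σ ≤ 2) (h : LD σ C) (δ : ℝ) : Continuous (ker σ δ) := by
  have hd := differentiable_riemannZeta₁
  have h1 : Continuous (deriv riemannZeta₁) := hd.deriv.continuous
  have h2 : Continuous fun t : ℝ => (σ : ℂ) + t * Complex.I := by fun_prop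
  unfold H293Z.MO.ker
  refine Continuous.mul (by fun_prop) ((h1.comp h2).div (hd.continuous.comp h2) fun t => ?_)
  exact (h _ (by simp) (by simpa using hσ)).1

lemma ker_bound {σ C δ η : ℝ} (hσ0 : 0 ≤ σ) (hσ : σ ≤ 1) (hC : 0 < C) (h : LD σ C) (hδ : 0 < δ)
    (hδ1 : δ ≤ 1) (hη : 0 < η) (hη1 : η ≤ 1) (t : ℝ) :
    ‖ker σ δ t‖ ≤ Real.exp 1 * C * (4 / η) * δ ^ (-η) * Real.exp (-(δ ^ 2 / 4) * t ^ 2) := by
  have h1 := (h ((σ : ℂ) + t * Complex.I) (by simp) (by simp; linarith)).2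
  have e1 : ((σ : ℂ) + t * Complex.I).im = t := by simp
  rw [e1] at h1
  have h2 : Real.log (|t| + 3) ≤ (|t| + 3) ^ η / η := Real.log_le_rpow_div (by positivity) hη
  have h3 := pow_bound hδ hδ1 hη.le hη1 t
  have e2 : ((δ : ℂ) ^ 2 * ((σ : ℂ) + t * Complex.I) ^ 2 / 2).re =
      δ ^ 2 * (σ ^ 2 - t ^ 2) / 2 := by
    simp [pow_two]
  unfold H293Z.MO.ker
  rw [norm_mul, Complex.norm_exp, e2]
  have h4 : Real.exp (δ ^ 2 * (σ ^ 2 - t ^ 2) / 2) ≤
      Real.exp 1 * Real.exp (-(δ ^ 2 * t ^ 2 / 2)) := by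
    rw [← Real.exp_add]
    refine Real.exp_le_exp.2 ?_
    have a1 : δ ^ 2 ≤ 1 := pow_le_one₀ hδ.le hδ1
    have a2 : σ ^ 2 ≤ 1 := pow_le_one₀ hσ0 hσ
    have a3 : δ ^ 2 * σ ^ 2 ≤ 1 := mul_le_one₀ a1 (by positivity) a2
    nlinarith
  have h5 : C * Real.log (|t| + 3) ≤
      C * (4 * δ ^ (-η) * Real.exp (δ ^ 2 * t ^ 2 / 4) / η) := by
    refine mul_le_mul_of_nonneg_left (h2.trans ?_) hC.le
    gcongr
  have e3 : Real.exp (-(δ ^ 2 / 4) * t ^ 2) =
      Real.exp (-(δ ^ 2 * t ^ 2 / 2)) * Real.exp (δ ^ 2 * t ^ 2 / 4) := by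
    rw [← Real.exp_add]; congr 1; ring
  calc _ ≤ (Real.exp 1 * Real.exp (-(δ ^ 2 * t ^ 2 / 2))) *
        (C * (4 * δ ^ (-η) * Real.exp (δ ^ 2 * t ^ 2 / 4) / η)) :=
        mul_le_mul h4 (h1.trans h5) (norm_nonneg _) (by positivity)
    _ = _ := by rw [e3]; ring

theorem ms : S_MS := by
  intro hLD hGF hPL hNZ ε hε hε1
  obtain ⟨C, hC, h⟩ := hLD hNZ (1 / 2 + ε) (by linarith) (by linarith)
  set σ : ℝ := 1 / 2 + ε with hσ
  set K : ℝ := Real.exp 1 * C * (4 / (ε / 2)) with hK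
  have hK0 : 0 < K := by positivity
  have hpi := Real.pi_pos
  refine ⟨2 * K ^ 2 * Real.sqrt (2 * Real.pi), by positivity, fun δ hδ hδ1 => ?_⟩
  have hc := ker_cont (by linarith) h δ
  have hb : ∀ t, ‖ker σ δ t‖ ≤ K * δ ^ (-(ε / 2)) * Real.exp (-(δ ^ 2 / 4) * t ^ 2) :=
    ker_bound (by linarith) (by linarith) hC h hδ hδ1 (by linarith) (by linarith)
  have hi1 : Integrable (ker σ δ) :=
    ((integrable_exp_neg_mul_sq (by positivity : 0 < δ ^ 2 / 4)).const_mul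
      (K * δ ^ (-(ε / 2)))).mono' hc.aestronglyMeasurable (Eventually.of_forall hb)
  have hb2 : ∀ t, ‖ker σ δ t‖ ^ 2 ≤ K ^ 2 * δ ^ (-ε) * Real.exp (-(δ ^ 2 / 2) * t ^ 2) := by
    intro t
    refine (pow_le_pow_left₀ (norm_nonneg _) (hb t) 2).trans (le_of_eq ?_)
    have a1 : (δ ^ (-(ε / 2))) ^ 2 = δ ^ (-ε) := by
      rw [pow_two, ← Real.rpow_add hδ]; congr 1; ring
    have a2 : Real.exp (-(δ ^ 2 / 4) * t ^ 2) ^ 2 = Real.exp (-(δ ^ 2 / 2) * t ^ 2) := by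
      rw [pow_two, ← Real.exp_add]; congr 1; ring
    rw [mul_pow, mul_pow, a1, a2]
  have hg := (integrable_exp_neg_mul_sq (by positivity : 0 < δ ^ 2 / 2)).const_mul
    (K ^ 2 * δ ^ (-ε))
  have hi2 : Integrable (fun t => ‖ker σ δ t‖ ^ 2) :=
    hg.mono' (hc.norm.pow 2).aestronglyMeasurable (Eventually.of_forall fun t => by
      rw [Real.norm_of_nonneg (by positivity)]; exact hb2 t)
  have hI : ∫ t, ‖ker σ δ t‖ ^ 2 ≤ K ^ 2 * δ ^ (-ε) * (Real.sqrt (2 * Real.pi) / δ) := by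
    refine (integral_mono hi2 hg hb2).trans (le_of_eq ?_)
    rw [integral_const_mul, integral_gaussian]
    congr 1
    rw [show Real.pi / (δ ^ 2 / 2) = 2 * Real.pi / δ ^ 2 by field_simp,
      Real.sqrt_div (by positivity), Real.sqrt_sq hδ.le]
  have hF := hGF σ C (by linarith) (by linarith) h δ hδ
  have hGc := four_cont hi1
  have hcont : Continuous (fun u => GG δ u - MM δ u) := by
    have e : (fun u => GG δ u - MM δ u) = fun u : ℝ =>
        (-(((δ / Real.sqrt (2 * Real.pi) * Real.exp (σ * u) : ℝ) : ℂ) *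
          ∫ t : ℝ, ker σ δ t * Complex.exp (Complex.I * t * u))).re := by
      funext u
      rw [← hF u, Complex.ofReal_re]
    rw [e]
    refine Complex.continuous_re.comp (Continuous.neg (Continuous.mul ?_ hGc))
    fun_prop
  refine ⟨hcont, fun a b ha hab => ?_⟩
  have hpt : ∀ u ∈ Set.Icc a b, (GG δ u - MM δ u) ^ 2 ≤
      δ ^ 2 / (2 * Real.pi) * Real.exp ((1 + 2 * ε) * b) *
        ‖∫ t : ℝ, ker σ δ t * Complex.exp (Complex.I * t * u)‖ ^ 2 := by
    intro u hu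
    have a1 := congrArg (fun z : ℂ => ‖z‖ ^ 2) (hF u)
    simp only [norm_neg, norm_mul, Complex.norm_real, Real.norm_eq_abs, sq_abs, mul_pow] at a1
    rw [a1, div_pow, Real.sq_sqrt (by positivity)]
    have a2 : Real.exp (σ * u) ^ 2 ≤ Real.exp ((1 + 2 * ε) * b) := by
      rw [pow_two, ← Real.exp_add]
      refine Real.exp_le_exp.2 ?_
      have : (1 + 2 * ε) * u ≤ (1 + 2 * ε) * b := mul_le_mul_of_nonneg_left hu.2 (by linarith)
      rw [hσ]; linarith
    gcongr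
  have h2 := intervalIntegral.integral_mono_on hab
    ((hcont.pow 2).intervalIntegrable (μ := volume) a b)
    ((continuous_const.mul (hGc.norm.pow 2)).intervalIntegrable a b) hpt
  simp only [Pi.mul_apply, Pi.pow_apply] at h2
  refine h2.trans ?_
  rw [intervalIntegral.integral_const_mul]
  have h3 := hPL (ker σ δ) hi1 hi2 a b hab
  have e4 : δ ^ (1 - ε) = δ * δ ^ (-ε) := by
    rw [sub_eq_add_neg, Real.rpow_add hδ, Real.rpow_one]
  calc δ ^ 2 / (2 * Real.pi) * Real.exp ((1 + 2 * ε) * b) * _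
      ≤ δ ^ 2 / (2 * Real.pi) * Real.exp ((1 + 2 * ε) * b) *
        (4 * Real.pi * (K ^ 2 * δ ^ (-ε) * (Real.sqrt (2 * Real.pi) / δ))) := by
        refine mul_le_mul_of_nonneg_left (h3.trans ?_) (by positivity)
        exact mul_le_mul_of_nonneg_left hI (by positivity)
    _ = _ := by
        rw [e4]
        field_simp
        ring

end Pool.Agent.H168Z.MS
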